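import Pool.Agent.MP_5c28a4_al.H13S.Base

/-!
The annihilator lemma `XAl` from `XFin`, `XPoly` and `XUnip`.
-/

set_option autoImplicit false

namespace Pool.Agent.MP_5c28a4_al.H89S.StrA

open scoped Polynomial

namespace AlA

variable {N M : Type} [Group N] [AddCommGroup M]

/-- the sum of the images of `g (z)` over `z` in `S` -/
noncomputable def VV (σ : Representation ℤ N M) (g : ℤ[X]) (S : Finset N) : Submodule ℤ M :=
  ⨆ z ∈ S, LinearMap.range (Polynomial.aeval (σ z) g)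

theorem le_VV (σ : Representation ℤ N M) (g : ℤ[X]) {S : Finset N} {z : N} (hz : z ∈ S) :
    LinearMap.range (Polynomial.aeval (σ z) g) ≤ VV σ g S :=
  le_iSup₂_of_le (f := fun z (_ : z ∈ S) => LinearMap.range (Polynomial.aeval (σ z) g)) z hz le_rfl

theorem VV_mono (σ : Representation ℤ N M) (g : ℤ[X]) {S S' : Finset N} (h : S ⊆ S') :
    VV σ g S ≤ VV σ g S' :=
  iSup₂_le fun _ hz => le_VV σ g (h hz)

theorem conj_aeval (σ : Representation ℤ N M) (g : ℤ[X]) (x z : N) :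
    σ x * Polynomial.aeval (σ z) g = Polynomial.aeval (σ (x * z * x⁻¹)) g * σ x := by
  induction g using Polynomial.induction_on' with
  | add p q hp hq => rw [map_add, map_add, mul_add, add_mul, hp, hq]
  | monomial n a =>
    rw [Polynomial.aeval_monomial, Polynomial.aeval_monomial, ← map_pow, ← map_pow, conj_pow,
      mul_assoc, ← map_mul, ← mul_assoc, ← Algebra.commutes, mul_assoc, ← map_mul]
    congr 2
    group

/-- the endomorphisms with image in a finite sum of images of `g (z)`, `z` in `D₀` -/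
def JJ (σ : Representation ℤ N M) (g : ℤ[X]) (D₀ : Subgroup N) :
    AddSubgroup (Module.End ℤ M) where
  carrier := {x | ∃ S : Finset N, (∀ z ∈ S, z ∈ D₀) ∧ ∀ v, x v ∈ VV σ g S}
  zero_mem' := ⟨∅, by simp, fun v => by simp⟩
  add_mem' := by
    classical
    rintro x y ⟨S, hS, hx⟩ ⟨S', hS', hy⟩
    refine ⟨S ∪ S', fun z hz => (Finset.mem_union.1 hz).elim (hS z) (hS' z), fun v => ?_⟩
    exact Submodule.add_mem _ (VV_mono σ g Finset.subset_union_left (hx v))
      (VV_mono σ g Finset.subset_union_right (hy v))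
  neg_mem' := by
    rintro x ⟨S, hS, hx⟩
    exact ⟨S, hS, fun v => Submodule.neg_mem _ (hx v)⟩

variable {σ : Representation ℤ N M} {g : ℤ[X]} {D₀ : Subgroup N}

theorem mem_JJ {x : Module.End ℤ M} :
    x ∈ JJ σ g D₀ ↔ ∃ S : Finset N, (∀ z ∈ S, z ∈ D₀) ∧ ∀ v, x v ∈ VV σ g S := Iff.rfl

theorem JJ_right {x : Module.End ℤ M} (hx : x ∈ JJ σ g D₀) (y : Module.End ℤ M) :
    x * y ∈ JJ σ g D₀ :=
  let ⟨S, hS, h⟩ := hx; ⟨S, hS, fun v => h (y v)⟩

theorem JJ_gen {z : N} (hz : z ∈ D₀) : Polynomial.aeval (σ z) g ∈ JJ σ g D₀ :=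
  ⟨{z}, by simpa using hz, fun v => le_VV σ g (Finset.mem_singleton_self z) ⟨v, rfl⟩⟩

theorem JJ_left (hD : D₀.Normal) (y : N) {x : Module.End ℤ M} (hx : x ∈ JJ σ g D₀) :
    σ y * x ∈ JJ σ g D₀ := by
  classical
  obtain ⟨S, hS, h⟩ := hx
  refine ⟨S.image fun z => y * z * y⁻¹, ?_, fun v => ?_⟩
  · intro z hz
    obtain ⟨w, hw, rfl⟩ := Finset.mem_image.1 hz
    exact hD.conj_mem w (hS w hw) y
  · have : VV σ g S ≤ (VV σ g (S.image fun z => y * z * y⁻¹)).comap (σ y) := by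
      refine iSup₂_le fun z hz => ?_
      rintro _ ⟨u, rfl⟩
      refine le_VV σ g (Finset.mem_image_of_mem _ hz) ⟨σ y u, ?_⟩
      exact (LinearMap.congr_fun (conj_aeval σ g y z) u).symm
    exact this (h v)

/-- finitely many elements of `JJ` have a common finite set -/
theorem JJ_fin {ι : Type} {F : Set ι} (hF : F.Finite) (f : ι → Module.End ℤ M)
    (h : ∀ i ∈ F, f i ∈ JJ σ g D₀) :
    ∃ S : Finset N, (∀ z ∈ S, z ∈ D₀) ∧ ∀ i ∈ F, ∀ v, f i v ∈ VV σ g S := by
  classical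
  choose! S hS hv using h
  refine ⟨hF.toFinset.biUnion S, fun z hz => ?_, fun i hi v => ?_⟩
  · obtain ⟨i, hi, hz⟩ := Finset.mem_biUnion.1 hz
    exact hS i (hF.mem_toFinset.1 hi) z hz
  · exact VV_mono σ g (Finset.subset_biUnion_of_mem S (hF.mem_toFinset.2 hi)) (hv i hi v)

/-- the action on the quotient of the ring of endomorphisms -/
def qr (σ : Representation ℤ N M) (g : ℤ[X]) (D₀ : Subgroup N) (hD : D₀.Normal) :
    Representation ℤ N (Module.End ℤ M ⧸ JJ σ g D₀) where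
  toFun y := (QuotientAddGroup.map (JJ σ g D₀) (JJ σ g D₀) (AddMonoidHom.mulLeft (σ y))
    fun _ hx => JJ_left hD y hx).toIntLinearMap
  map_one' := by
    refine LinearMap.ext fun q => ?_
    obtain ⟨x, rfl⟩ := QuotientAddGroup.mk_surjective q
    simp
  map_mul' := fun a b => by
    refine LinearMap.ext fun q => ?_
    obtain ⟨x, rfl⟩ := QuotientAddGroup.mk_surjective q
    change ((σ (a * b) * x : Module.End ℤ M) : Module.End ℤ M ⧸ JJ σ g D₀) =
      (σ a * (σ b * x) : Module.End ℤ M)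
    rw [map_mul, mul_assoc]

theorem qr_mk (hD : D₀.Normal) (y : N) (x : Module.End ℤ M) :
    qr σ g D₀ hD y (x : Module.End ℤ M ⧸ JJ σ g D₀) = (σ y * x : Module.End ℤ M) := rfl

theorem wd_qr (hD : D₀.Normal) (l : List N) (x : Module.End ℤ M) :
    wd (qr σ g D₀ hD) l (x : Module.End ℤ M ⧸ JJ σ g D₀) = (wd σ l * x : Module.End ℤ M) := by
  induction l with
  | nil => simp
  | cons y l ih =>
    rw [wd_cons, wd_cons, Module.End.mul_apply, ih, LinearMap.sub_apply, qr_mk,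
      Module.End.one_apply, ← QuotientAddGroup.mk_sub, mul_assoc, sub_mul, one_mul]

theorem smul_wd_qr (hD : D₀.Normal) (m : ℤ) (l : List N) :
    m • wd (qr σ g D₀ hD) l = 0 ↔ m • wd σ l ∈ JJ σ g D₀ := by
  have key : ∀ x : Module.End ℤ M, (m • wd (qr σ g D₀ hD) l) (x : Module.End ℤ M ⧸ JJ σ g D₀) =
      ((m • wd σ l) * x : Module.End ℤ M) := fun x => by
    rw [LinearMap.smul_apply, wd_qr, smul_mul_assoc, QuotientAddGroup.mk_zsmul]
  constructor
  · intro h
    have := key 1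
    rw [h, mul_one, LinearMap.zero_apply] at this
    exact (QuotientAddGroup.eq_zero_iff _).1 this.symm
  · intro h
    refine LinearMap.ext fun q => ?_
    obtain ⟨x, rfl⟩ := QuotientAddGroup.mk_surjective q
    rw [key, LinearMap.zero_apply]
    exact (QuotientAddGroup.eq_zero_iff _).2 (JJ_right h x)

/-- the polynomials with value at `z` in `JJ` -/
def idl (σ : Representation ℤ N M) (g : ℤ[X]) (D₀ : Subgroup N) (z : N) : Ideal ℤ[X] where
  carrier := {h | Polynomial.aeval (σ z) h ∈ JJ σ g D₀}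
  zero_mem' := by
    change _ ∈ JJ σ g D₀
    rw [map_zero]; exact AddSubgroup.zero_mem _
  add_mem' := fun {a b} ha hb => by
    change _ ∈ JJ σ g D₀
    rw [map_add]; exact AddSubgroup.add_mem _ ha hb
  smul_mem' := fun c a ha => by
    change _ ∈ JJ σ g D₀
    rw [smul_eq_mul, mul_comm, map_mul]; exact JJ_right ha _

theorem unip {m : ℤ} {k L e : ℕ}
    (h : Polynomial.C m * Polynomial.X ^ k * (Polynomial.X ^ L - 1) ^ e ∈
      Ideal.span {h : ℤ[X] | ∃ j : ℕ, 0 < j ∧ h = Polynomial.expand ℤ j g})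
    {z : N} (hz : z ∈ D₀) : m • (σ (z ^ L) - 1) ^ e ∈ JJ σ g D₀ := by
  have h1 : Ideal.span {h : ℤ[X] | ∃ j : ℕ, 0 < j ∧ h = Polynomial.expand ℤ j g} ≤
      idl σ g D₀ z := by
    rw [Ideal.span_le]
    rintro _ ⟨j, -, rfl⟩
    change _ ∈ JJ σ g D₀
    rw [Polynomial.expand_aeval, ← map_pow]
    exact JJ_gen (D₀.pow_mem hz j)
  have h2 : Polynomial.aeval (σ z) (Polynomial.C m * (Polynomial.X ^ L - 1) ^ e *
      Polynomial.X ^ k) ∈ JJ σ g D₀ := by
    rw [mul_right_comm]; exact h1 h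
  have h3 := JJ_right h2 (σ (z ^ k)⁻¹)
  simp only [map_mul, map_pow, map_sub, map_one, Polynomial.aeval_C, Polynomial.aeval_X] at h3
  rw [mul_assoc, ← map_pow σ z k, ← map_mul, mul_inv_cancel, map_one, mul_one,
    ← Algebra.smul_def, ← map_pow] at h3
  exact h3

theorem wd_replicate (σ : Representation ℤ N M) (n : ℕ) (y : N) :
    wd σ (List.replicate n y) = (σ y - 1) ^ n := by
  simp [wd]

omit [Group N] in
theorem fin_lists {T : Set N} (hT : T.Finite) (n : ℕ) :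
    {l : List N | l.length = n ∧ ∀ y ∈ l, y ∈ T}.Finite := by
  induction n with
  | zero => exact (Set.finite_singleton []).subset fun l hl => List.length_eq_zero_iff.1 hl.1
  | succ n ih =>
    refine (hT.image2 List.cons ih).subset ?_
    rintro (_ | ⟨y, l⟩) ⟨h1, h2⟩
    · simp at h1
    · exact ⟨y, h2 y List.mem_cons_self, l,
        ⟨by simpa using h1, fun x hx => h2 x (List.mem_cons_of_mem _ hx)⟩, rfl⟩

end AlA

open AlA in
theorem al : XFin → XPoly → XUnip → XAl := by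
  intro hF hP hU N M _ _ σ K D₀ g hN hK hT hD hI hg
  obtain ⟨m₁, k, L, e, hm₁, hL, hp⟩ := hP g hg
  have hT' : Tame (nonZeroDivisors ℤ) (qr σ g D₀ hD) K := by
    obtain ⟨a, ha, t, ht⟩ := hT
    refine ⟨a, ha, t, kill_iff.2 fun l hl hy => (smul_wd_qr hD a l).2 ?_⟩
    rw [kill_iff.1 ht l hl hy]
    exact AddSubgroup.zero_mem _
  have hz : ∀ z : N, Kill (qr σ g D₀ hD) m₁ {z ^ (D₀.index * L)} e := fun z =>
    kill_iff.2 fun l hl hy => (smul_wd_qr hD m₁ l).2 <| by
      rw [List.eq_replicate_iff.2 ⟨hl, hy⟩, wd_replicate, pow_mul]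
      exact unip hp (D₀.pow_index_mem z)
  obtain ⟨D, hDn, hDi, a, ha, t, ht⟩ := hU N _ (qr σ g D₀ hD) K m₁ (D₀.index * L) e hN hK hT' hm₁
    (Nat.mul_pos (Nat.pos_of_ne_zero hI.index_ne_zero) hL) hz
  have ha0 : a ≠ 0 := nonZeroDivisors.ne_zero ha
  have ht' := kill_iff.1 (kill_dvd ht (Int.dvd_natAbs.2 dvd_rfl))
  obtain ⟨T, hTD⟩ : D.FG := (Group.fg_iff_subgroup_fg D).1 inferInstance
  obtain ⟨S, hS, hv⟩ := JJ_fin (σ := σ) (g := g) (D₀ := D₀) (fin_lists T.finite_toSet t)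
    (fun l => (a.natAbs : ℤ) • wd σ l) fun l hl => (smul_wd_qr hD _ l).1 <|
      ht' l hl.1 fun y hy => hTD ▸ Subgroup.subset_closure (hl.2 y hy)
  refine ⟨a.natAbs, D, t, S, Int.natAbs_pos.2 ha0, hDn, hDi, hS, ?_⟩
  have h1 := hF N M σ T (LinearMap.range ((a.natAbs : ℤ) • (1 : Module.End ℤ M))) t <| by
    rintro d - _ ⟨x, rfl⟩
    exact ⟨σ d x, by simp⟩
  rw [hTD] at h1
  refine (aug_mono le_rfl ?_ t).trans (h1.trans ?_)
  · rintro _ ⟨x, rfl⟩
    exact ⟨x, natCast_zsmul x _⟩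
  · rw [aug, Submodule.span_le]
    rintro _ ⟨l, hl, hy, _, ⟨x, rfl⟩, rfl⟩
    have := hv l ⟨hl, hy⟩ x
    rw [LinearMap.smul_apply, ← map_smul] at this
    exact this

end Pool.Agent.MP_5c28a4_al.H89S.StrA
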